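import Pool.Agent.V5helper70.FR.T4d

/-!
# T4: the pairing of the generating functions `G_β` with the theta functions
-/

set_option autoImplicit false

namespace Pool.Agent.V5helper70.FR

open Pool.Agent.V5helper40.FR
open scoped LaurentPolynomial Nat

noncomputable section

theorem eta_pow_coeff (N : ℤ) : (eta ^ 12).coeff N =
    if (24 : ℤ) ∣ N - 12 then (ofP (eulerProd ℂ ^ 12)).coeff ((N - 12) / 24) else 0 := by
  rw [eta, mul_pow, ← map_pow, xx, HahnSeries.single_pow, one_pow, HahnSeries.coeff_single_mul, one_mul]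
  have e : N - (12 : ℕ) • (1 : ℤ) = N - 12 := by simp
  rw [e, coeff_ofQ]

theorem ofP_zero_coeff (n : ℤ) : (ofP (0 : PowerSeries ℂ)).coeff n = 0 := by
  rw [map_zero]; rfl

/-- T4 -/
theorem t4 : JobT4 := by
  refine ⟨?_, ?_, ?_, ?_⟩
  · ext N
    rw [pair_moment thK 0 (fun j n => by simp) N, mul_zero, co_PF_small (by norm_num),
      ofP_zero_coeff, mul_zero, ite_self]
    rfl
  · ext N
    rw [pair_moment (fun j => dl (thK j)) 1 (fun j n => by
      show (n : ℂ) * (thK j).coeff n = _
      rw [pow_one]) N, mul_one, co_PF_small (by norm_num), ofP_zero_coeff, mul_zero, ite_self]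
    rfl
  · ext N
    rw [pair_moment (fun j => dl (dl (thK j))) 2 (fun j n => by
      show (n : ℂ) * ((n : ℂ) * (thK j).coeff n) = _
      ring) N, co_PF_small (by norm_num), ofP_zero_coeff, mul_zero, ite_self]
    rfl
  · ext N
    rw [pair_moment (fun j => dl (dl (dl (thK j)))) 3 (fun j n => by
      show (n : ℂ) * ((n : ℂ) * ((n : ℂ) * (thK j).coeff n)) = _
      ring) N, show 2 * 3 = 6 by norm_num, co_PF_six]
    have hc : (-5760 * eta ^ 12 : K).coeff N = -5760 * (eta ^ 12).coeff N := by
      have e : (-5760 : K) = HahnSeries.single 0 (-5760 : ℂ) := by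
        have h1 : (HahnSeries.single 0 (-5760 : ℂ) : K) = HahnSeries.C (-5760 : ℂ) := rfl
        rw [h1, map_neg, map_ofNat]
      rw [e, HahnSeries.coeff_single_mul, sub_zero]
    rw [hc, eta_pow_coeff]
    split_ifs with hd
    · rw [map_neg, HahnSeries.coeff_neg]
      have hf : (6 ! : ℕ) = 720 := rfl
      rw [hf]
      push_cast
      ring
    · simp

end

end Pool.Agent.V5helper70.FR
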