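import Pool.Agent.V5helper40.FR.Defs
import Pool.Agent.Helper308.QS4

/-!
# T4, part a: coefficients of the powers of the theta series, quasi-periodicity
-/

set_option autoImplicit false

namespace Pool.Agent.V5helper70.FR

open Pool.Agent.V5helper40.FR
open scoped LaurentPolynomial

noncomputable section

/-- the coefficient of `T^t q^n`, for integers `t` and `n` -/
def cf (f : PowerSeries ℤ[T;T⁻¹]) (t n : ℤ) : ℤ :=
  if n < 0 then 0 else (PowerSeries.coeff n.toNat f).coeff t

theorem cf_neg (f : PowerSeries ℤ[T;T⁻¹]) {t n : ℤ} (h : n < 0) : cf f t n = 0 := if_pos h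

theorem cf_nat (f : PowerSeries ℤ[T;T⁻¹]) (t : ℤ) (n : ℕ) :
    cf f t n = (PowerSeries.coeff n f).coeff t := by
  rw [cf, if_neg (by omega), Int.toNat_natCast]

theorem coeff_T_mul (a t : ℤ) (P : ℤ[T;T⁻¹]) :
    (LaurentPolynomial.T a * P).coeff t = P.coeff (t - a) := by
  have h := AddMonoidAlgebra.coeff_single_mul_eq_mul_coeff (x := P) (m := a) (m₁ := t) (r := (1 : ℤ))
    (t - a) (by
      intro m' _
      constructor
      · intro h; omega
      · intro h; omega)
  rw [one_mul] at h
  exact h

theorem tri_nonneg (m : ℤ) : 0 ≤ m * (m + 1) / 2 := by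
  have h : 0 ≤ m * (m + 1) := by
    rcases le_or_gt 0 m with h | h
    · nlinarith
    · nlinarith
  omega

theorem tri_two (m : ℤ) : 2 * (m * (m + 1) / 2) = m * (m + 1) :=
  Int.two_mul_ediv_two_of_even (Int.even_mul_succ_self m)

theorem abs_le_of_tri {m n : ℤ} (h : m * (m + 1) / 2 ≤ n) : -n - 1 ≤ m ∧ m ≤ n := by
  have h1 := tri_two m
  have h2 := tri_nonneg m
  constructor
  · by_contra hlt
    push Not at hlt
    nlinarith
  · by_contra hlt
    push Not at hlt
    nlinarith

theorem coeff_thetaNum (n : ℕ) {B : ℤ} (hB : (n : ℤ) + 1 ≤ B) :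
    PowerSeries.coeff n thetaNum = ∑ m ∈ Finset.Icc (-B) B,
      if m * (m + 1) = 2 * (n : ℤ) then (LaurentPolynomial.T (2 * m + 1) : ℤ[T;T⁻¹]) else 0 := by
  rw [thetaNum, PowerSeries.coeff_mk, Finset.sum_filter]
  refine Finset.sum_subset ?_ ?_
  · intro m hm
    rw [Finset.mem_Icc] at hm ⊢
    omega
  · intro m _ hm
    rw [if_neg]
    intro h
    apply hm
    rw [Finset.mem_Icc]
    have := abs_le_of_tri (m := m) (n := n) (by omega)
    omega

theorem cf_theta_mul (g : PowerSeries ℤ[T;T⁻¹]) (t n : ℤ) :
    cf (thetaNum * g) t n = ∑ᶠ m : ℤ, cf g (t - (2 * m + 1)) (n - m * (m + 1) / 2) := by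
  rcases lt_or_ge n 0 with hn | hn
  · rw [cf_neg _ hn]
    symm
    refine finsum_eq_zero_of_forall_eq_zero fun m => ?_
    have := tri_nonneg m
    exact cf_neg _ (by omega)
  · obtain ⟨N, rfl⟩ := Int.eq_ofNat_of_zero_le hn
    have hsupp : (Function.support fun m : ℤ =>
        cf g (t - (2 * m + 1)) ((N : ℤ) - m * (m + 1) / 2)) ⊆
        (Finset.Icc (-((N : ℤ) + 1)) (N + 1) : Finset ℤ) := by
      intro m hm
      rw [Function.mem_support] at hm
      have h : m * (m + 1) / 2 ≤ N := by
        by_contra hlt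
        exact hm (cf_neg _ (by omega))
      have := abs_le_of_tri h
      rw [Finset.mem_coe, Finset.mem_Icc]
      omega
    rw [finsum_eq_sum_of_support_subset _ hsupp]
    have h1 : cf (thetaNum * g) t N = (PowerSeries.coeff N (thetaNum * g)).coeff t := cf_nat _ _ _
    rw [h1, PowerSeries.coeff_mul]
    have h2 : ∀ p ∈ Finset.HasAntidiagonal.antidiagonal N,
        PowerSeries.coeff p.1 thetaNum * PowerSeries.coeff p.2 g =
        ∑ m ∈ Finset.Icc (-((N : ℤ) + 1)) (N + 1), if m * (m + 1) = 2 * (p.1 : ℤ) then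
          LaurentPolynomial.T (2 * m + 1) * PowerSeries.coeff p.2 g else 0 := by
      intro p hp
      rw [Finset.HasAntidiagonal.mem_antidiagonal] at hp
      rw [coeff_thetaNum p.1 (B := N + 1) (by omega), Finset.sum_mul]
      refine Finset.sum_congr rfl fun m _ => ?_
      split_ifs <;> simp
    rw [Finset.sum_congr rfl h2, Finset.sum_comm, AddMonoidAlgebra.coeff_sum, Finsupp.finsetSum_apply]
    refine Finset.sum_congr rfl fun m _ => ?_
    rw [AddMonoidAlgebra.coeff_sum, Finsupp.finsetSum_apply]
    have h3 := tri_two m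
    have h4 := tri_nonneg m
    by_cases h : m * (m + 1) / 2 ≤ N
    · rw [Finset.sum_eq_single ((m * (m + 1) / 2).toNat, N - (m * (m + 1) / 2).toNat)]
      · have h5 : (((m * (m + 1) / 2).toNat : ℕ) : ℤ) = m * (m + 1) / 2 := Int.toNat_of_nonneg h4
        dsimp only
        rw [if_pos (by omega), coeff_T_mul]
        have h6 : (N : ℤ) - m * (m + 1) / 2 = ((N - (m * (m + 1) / 2).toNat : ℕ) : ℤ) := by omega
        rw [h6, cf_nat]
      · intro p hp hne
        rw [Finset.HasAntidiagonal.mem_antidiagonal] at hp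
        rw [if_neg]
        · simp
        · intro h7
          apply hne
          ext
          · dsimp only; omega
          · dsimp only; omega
      · intro h7
        exfalso
        apply h7
        rw [Finset.HasAntidiagonal.mem_antidiagonal]
        dsimp only
        omega
    · rw [cf_neg _ (by omega)]
      refine Finset.sum_eq_zero fun p hp => ?_
      rw [Finset.HasAntidiagonal.mem_antidiagonal] at hp
      rw [if_neg]
      · simp
      · intro h7
        omega

theorem cf_one (t n : ℤ) : cf 1 t n = if n = 0 ∧ t = 0 then 1 else 0 := by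
  rw [cf]
  by_cases hn : n < 0
  · rw [if_pos hn, if_neg (by omega)]
  · rw [if_neg hn, PowerSeries.coeff_one]
    by_cases h0 : n = 0
    · subst h0
      simp only [Int.toNat_zero, if_true, true_and]
      have : (1 : ℤ[T;T⁻¹]) = LaurentPolynomial.T 0 := LaurentPolynomial.T_zero.symm
      rw [this, LaurentPolynomial.T_apply]
      by_cases ht : t = 0
      · rw [if_pos ht.symm, if_pos ht]
      · rw [if_neg (fun h => ht h.symm), if_neg ht]
    · rw [if_neg (by omega), if_neg (by omega)]
      simp

/-- the coefficient of `T^t` in the `k`-th power vanishes unless `t ≡ k (mod 2)` -/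
theorem cf_parity (k : ℕ) : ∀ t n : ℤ, (t + k) % 2 = 1 → cf (thetaNum ^ k) t n = 0 := by
  induction k with
  | zero =>
    intro t n h
    rw [pow_zero, cf_one, if_neg]
    intro h1
    rw [h1.2] at h
    norm_num at h
  | succ k ih =>
    intro t n h
    rw [pow_succ', cf_theta_mul]
    refine finsum_eq_zero_of_forall_eq_zero fun m => ?_
    refine ih _ _ ?_
    push_cast at h
    omega

/-- quasi-periodicity of the coefficients of the powers of the theta series -/
theorem cf_qp (k : ℕ) : ∀ t n m : ℤ, 2 * m = t + k →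
    cf (thetaNum ^ k) (t + 2 * k) (n + m) = cf (thetaNum ^ k) t n := by
  induction k with
  | zero =>
    intro t n m h
    rw [pow_zero, cf_one, cf_one]
    push_cast at h ⊢
    by_cases ht : t = 0
    · subst ht
      have : m = 0 := by omega
      subst this
      simp
    · rw [if_neg (by omega), if_neg (by omega)]
  | succ k ih =>
    intro t n m h
    rw [pow_succ', cf_theta_mul, cf_theta_mul]
    rw [← finsum_comp_equiv (Equiv.addRight (1 : ℤ))]
    refine finsum_congr fun s => ?_
    rw [Equiv.coe_addRight]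
    have h1 := tri_two s
    have h2 := tri_two (s + 1)
    have h3 : (s + 1) * (s + 1 + 1) / 2 = s * (s + 1) / 2 + (s + 1) := by nlinarith
    rw [h3]
    push_cast at h ⊢
    rw [← ih (t - (2 * s + 1)) (n - s * (s + 1) / 2) (m - (s + 1)) (by linarith)]
    congr 1 <;> ring

/-- symmetry -/
theorem cf_symm (k : ℕ) : ∀ t n : ℤ, cf (thetaNum ^ k) (-t) n = cf (thetaNum ^ k) t n := by
  induction k with
  | zero =>
    intro t n
    rw [pow_zero, cf_one, cf_one]
    congr 1
    simp
  | succ k ih =>
    intro t n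
    rw [pow_succ', cf_theta_mul, cf_theta_mul]
    rw [← finsum_comp_equiv (Equiv.subLeft (-1 : ℤ))]
    refine finsum_congr fun s => ?_
    rw [Equiv.subLeft_apply]
    have h3 : (-1 - s) * (-1 - s + 1) = s * (s + 1) := by ring
    rw [h3, ← ih]
    congr 1
    ring

end

end Pool.Agent.V5helper70.FR
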