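import Pool.Agent.V5helper70.FR.T4a

/-!
# T4, part b: the Euler product; symmetries of the coefficients of `F_6`
-/

set_option autoImplicit false

namespace Pool.Agent.V5helper70.FR

open Pool.Agent.V5helper40.FR
open scoped LaurentPolynomial

noncomputable section

theorem eulerProd_map {R S : Type*} [CommRing R] [CommRing S] (f : R →+* S) :
    PowerSeries.map f (eulerProd R) = eulerProd S := by
  ext n
  rw [PowerSeries.coeff_map, eulerProd, eulerProd, PowerSeries.coeff_mk, PowerSeries.coeff_mk,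
    ← PowerSeries.coeff_map, map_prod]
  congr 1
  refine Finset.prod_congr rfl fun j _ => ?_
  rw [map_sub, map_one, map_pow, PowerSeries.map_X]

theorem eulerProd_int : eulerProd ℤ = Pool.Agent.Helper308.QS.E1 := by
  ext n
  rw [eulerProd, PowerSeries.coeff_mk]
  have h := Pool.Agent.Helper308.QS.E1_dvd n
  rw [PowerSeries.X_pow_dvd_iff] at h
  have h1 := h n (Nat.lt_succ_self n)
  rw [map_sub, sub_eq_zero] at h1
  rw [h1]
  congr 1
  rw [Pool.Agent.Y246.Z700.PP, ← Polynomial.coeToPowerSeries.ringHom_apply, map_prod]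
  refine Finset.prod_congr rfl fun j _ => ?_
  rw [map_sub, map_one, map_pow, Polynomial.coeToPowerSeries.ringHom_apply, Polynomial.coe_X]

theorem constantCoeff_eulerProd (R : Type*) [CommRing R] :
    PowerSeries.constantCoeff (eulerProd R) = 1 := by
  rw [← PowerSeries.coeff_zero_eq_constantCoeff_apply, eulerProd, PowerSeries.coeff_mk]
  simp

/-- the inverse of the sixth power of the Euler product -/
def J0 : PowerSeries ℤ := PowerSeries.invOfUnit (eulerProd ℤ ^ 6) 1

theorem mul_J0 : eulerProd ℤ ^ 6 * J0 = 1 :=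
  PowerSeries.mul_invOfUnit _ _ (by rw [map_pow, constantCoeff_eulerProd]; simp)

theorem F_mul : F 6 * eulerProd ℤ[T;T⁻¹] ^ 6 = thetaNum ^ 6 := by
  have h : eulerProd ℤ[T;T⁻¹] ^ 6 * PowerSeries.invOfUnit (eulerProd ℤ[T;T⁻¹] ^ 6) 1 = 1 :=
    PowerSeries.mul_invOfUnit _ _ (by rw [map_pow, constantCoeff_eulerProd]; simp)
  rw [F, mul_assoc, mul_comm (PowerSeries.invOfUnit _ _), h, mul_one]

theorem F_eq : F 6 = thetaNum ^ 6 * PowerSeries.map LaurentPolynomial.C J0 := by
  have h : eulerProd ℤ[T;T⁻¹] ^ 6 * PowerSeries.map LaurentPolynomial.C J0 = 1 := by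
    rw [← eulerProd_map (LaurentPolynomial.C : ℤ →+* ℤ[T;T⁻¹]), ← map_pow, ← map_mul, mul_J0, map_one]
  rw [← F_mul, mul_assoc, h, mul_one]

theorem cf_mul_map (f : PowerSeries ℤ[T;T⁻¹]) (p : PowerSeries ℤ) (t n : ℤ) :
    cf (f * PowerSeries.map LaurentPolynomial.C p) t n =
      ∑ᶠ k : ℕ, cf f t (n - k) * PowerSeries.coeff k p := by
  rcases lt_or_ge n 0 with hn | hn
  · rw [cf_neg _ hn]
    symm
    refine finsum_eq_zero_of_forall_eq_zero fun k => ?_
    rw [cf_neg _ (by omega), zero_mul]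
  · obtain ⟨N, rfl⟩ := Int.eq_ofNat_of_zero_le hn
    have hsupp : (Function.support fun k : ℕ => cf f t ((N : ℤ) - k) * PowerSeries.coeff k p) ⊆
        (Finset.range (N + 1) : Finset ℕ) := by
      intro k hk
      rw [Function.mem_support] at hk
      rw [Finset.mem_coe, Finset.mem_range]
      by_contra hlt
      exact hk (by rw [cf_neg _ (by omega), zero_mul])
    rw [finsum_eq_sum_of_support_subset _ hsupp]
    rw [cf_nat, PowerSeries.coeff_mul, AddMonoidAlgebra.coeff_sum, Finsupp.finsetSum_apply,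
      Finset.Nat.sum_antidiagonal_eq_sum_range_succ_mk, ← Finset.sum_range_reflect]
    refine Finset.sum_congr rfl fun k hk => ?_
    rw [Finset.mem_range] at hk
    dsimp only
    have e1 : N + 1 - 1 - k = N - k := by omega
    rw [e1, PowerSeries.coeff_map]
    have e2 : N - (N - k) = k := by omega
    rw [e2]
    have e3 : (N : ℤ) - (k : ℤ) = ((N - k : ℕ) : ℤ) := by omega
    rw [e3, cf_nat]
    exact AddMonoidAlgebra.coeff_mul_single_zero _ _ _

theorem cpsi_eq (β n : ℤ) : cpsi 6 β n = cf (F 6) (2 * β) n := rfl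

theorem cpsi_neg (β : ℤ) {n : ℤ} (h : n < 0) : cpsi 6 β n = 0 := if_pos h

theorem cpsi_shift (β n : ℤ) : cpsi 6 (β + 6) (n + β + 3) = cpsi 6 β n := by
  rw [cpsi_eq, cpsi_eq, F_eq, cf_mul_map, cf_mul_map]
  refine finsum_congr fun k => ?_
  have h := cf_qp 6 (2 * β) (n - k) (β + 3) (by push_cast; ring)
  rw [← h]
  congr 2
  · push_cast; ring
  · ring

theorem cpsi_shifts (β n s : ℤ) : cpsi 6 (β + 6 * s) (n + s * β + 3 * s ^ 2) = cpsi 6 β n := by
  induction s using Int.induction_on with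
  | zero => simp
  | succ s ih =>
    rw [← ih, ← cpsi_shift (β + 6 * s)]
    congr 1 <;> ring
  | pred s ih =>
    rw [← ih, ← cpsi_shift (β + 6 * (-s - 1))]
    congr 1 <;> ring

theorem cpsi_symm (β n : ℤ) : cpsi 6 (-β) n = cpsi 6 β n := by
  rw [cpsi_eq, cpsi_eq, F_eq, cf_mul_map, cf_mul_map]
  refine finsum_congr fun k => ?_
  have h := cf_symm 6 (2 * β) (n - k)
  rw [← h]
  congr 2
  ring

theorem F_parity (t n : ℤ) (h : t % 2 = 1) : cf (F 6) t n = 0 := by
  rw [F_eq, cf_mul_map]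
  refine finsum_eq_zero_of_forall_eq_zero fun k => ?_
  rw [cf_parity 6 _ _ (by push_cast; omega), zero_mul]

end

end Pool.Agent.V5helper70.FR
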