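import Pool.Agent.V5helper70.FR.T4b

/-!
# T4, part c: the moments of the coefficients of `F_6` at `ζ = -1`
-/

set_option autoImplicit false

namespace Pool.Agent.V5helper70.FR

open Pool.Agent.V5helper40.FR
open scoped LaurentPolynomial Nat

noncomputable section

/-- `exp (a ε)` -/
def vv (a : ℂ) : PowerSeries ℂ := PowerSeries.rescale a (PowerSeries.exp ℂ)

theorem vv_add (a b : ℂ) : vv (a + b) = vv a * vv b := (PowerSeries.exp_mul_exp_eq_exp_add a b).symm

theorem coeff_vv (a : ℂ) (k : ℕ) : PowerSeries.coeff k (vv a) = a ^ k / (k ! : ℂ) := by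
  rw [vv, PowerSeries.coeff_rescale, PowerSeries.coeff_exp]
  simp [div_eq_mul_inv]

theorem vv_zero : vv 0 = 1 := by
  ext k
  rw [coeff_vv, PowerSeries.coeff_one]
  split_ifs with h
  · subst h; simp
  · rw [zero_pow h, zero_div]

/-- `i exp (ε / 2)` -/
def uu : (PowerSeries ℂ)ˣ where
  val := PowerSeries.C Complex.I * vv (1 / 2)
  inv := PowerSeries.C (-Complex.I) * vv (-(1 / 2))
  val_inv := by
    calc PowerSeries.C Complex.I * vv (1 / 2) * (PowerSeries.C (-Complex.I) * vv (-(1 / 2)))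
        = PowerSeries.C (Complex.I * (-Complex.I)) * (vv (1 / 2) * vv (-(1 / 2))) := by
          rw [map_mul]; ring
      _ = 1 := by rw [← vv_add, add_neg_cancel, vv_zero]; simp
  inv_val := by
    calc PowerSeries.C (-Complex.I) * vv (-(1 / 2)) * (PowerSeries.C Complex.I * vv (1 / 2))
        = PowerSeries.C (Complex.I * (-Complex.I)) * (vv (1 / 2) * vv (-(1 / 2))) := by
          rw [map_mul]; ring
      _ = 1 := by rw [← vv_add, add_neg_cancel, vv_zero]; simp

theorem uu_val : (uu : PowerSeries ℂ) = PowerSeries.C Complex.I * vv (1 / 2) := rfl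

theorem uu_inv : ((uu⁻¹ : (PowerSeries ℂ)ˣ) : PowerSeries ℂ) =
    PowerSeries.C (-Complex.I) * vv (-(1 / 2)) := rfl

theorem uu_zpow (t : ℤ) : ((uu ^ t : (PowerSeries ℂ)ˣ) : PowerSeries ℂ) =
    PowerSeries.C (Complex.I ^ t) * vv (t / 2) := by
  induction t using Int.induction_on with
  | zero => simp [vv_zero]
  | succ t ih =>
    rw [zpow_add_one, Units.val_mul, ih, uu_val, zpow_add_one₀ Complex.I_ne_zero]
    have e : (((t : ℤ) + 1 : ℤ) : ℂ) / 2 = ((t : ℤ) : ℂ) / 2 + 1 / 2 := by push_cast; ring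
    rw [e, vv_add, map_mul]
    ring
  | pred t ih =>
    rw [zpow_sub_one, Units.val_mul, ih, uu_inv, zpow_sub_one₀ Complex.I_ne_zero, Complex.inv_I]
    have e : ((-(t : ℤ) - 1 : ℤ) : ℂ) / 2 = ((-(t : ℤ) : ℤ) : ℂ) / 2 + -(1 / 2) := by push_cast; ring
    rw [e, vv_add, map_mul]
    ring

/-- the coefficient of `ε^k` in `(i exp (ε / 2))^t` -/
def ww (k : ℕ) (t : ℤ) : ℂ := Complex.I ^ t * (((t : ℂ) / 2) ^ k / (k ! : ℂ))

theorem coeff_uu_zpow (k : ℕ) (t : ℤ) :
    PowerSeries.coeff k ((uu ^ t : (PowerSeries ℂ)ˣ) : PowerSeries ℂ) = ww k t := by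
  rw [uu_zpow, PowerSeries.coeff_C_mul, coeff_vv, ww]

/-- evaluation at `T = i exp (ε / 2)` -/
def phi : ℤ[T;T⁻¹] →+* PowerSeries ℂ := LaurentPolynomial.eval₂ (Int.castRingHom _) uu

theorem phi_T (t : ℤ) : phi (LaurentPolynomial.T t) = ((uu ^ t : (PowerSeries ℂ)ˣ) : PowerSeries ℂ) :=
  LaurentPolynomial.eval₂_T _ _ _

theorem phi_C (a : ℤ) : phi (LaurentPolynomial.C a) = PowerSeries.C (a : ℂ) := by
  rw [phi, LaurentPolynomial.eval₂_C]
  simp

theorem supp_fin (k : ℕ) (P : ℤ[T;T⁻¹]) :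
    (Function.support fun t : ℤ => ((P.coeff t : ℤ) : ℂ) * ww k t).Finite := by
  refine Set.Finite.subset (P.coeff.support.finite_toSet) ?_
  intro t ht
  rw [Function.mem_support] at ht
  rw [Finset.mem_coe, Finsupp.mem_support_iff]
  intro h
  apply ht
  rw [h]
  simp

theorem coeff_phi (k : ℕ) (P : ℤ[T;T⁻¹]) :
    PowerSeries.coeff k (phi P) = ∑ᶠ t : ℤ, ((P.coeff t : ℤ) : ℂ) * ww k t := by
  induction P using LaurentPolynomial.induction_on' with
  | add p q hp hq =>
    rw [map_add, map_add, hp, hq, ← finsum_add_distrib (supp_fin k p) (supp_fin k q)]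
    refine finsum_congr fun t => ?_
    rw [AddMonoidAlgebra.coeff_add, Finsupp.add_apply]
    push_cast
    ring
  | C_mul_T n a =>
    rw [map_mul, phi_T, phi_C, PowerSeries.coeff_C_mul, coeff_uu_zpow, finsum_eq_single _ n]
    · rw [← LaurentPolynomial.single_eq_C_mul_T, AddMonoidAlgebra.coeff_single,
        Finsupp.single_eq_same]
    · intro m hm
      rw [← LaurentPolynomial.single_eq_C_mul_T, AddMonoidAlgebra.coeff_single,
        Finsupp.single_eq_of_ne (by omega)]
      simp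

/-- the coefficient of `ε^k`, as a power series in `q` -/
def co (k : ℕ) (s : PowerSeries (PowerSeries ℂ)) : PowerSeries ℂ :=
  PowerSeries.mk fun n => PowerSeries.coeff k (PowerSeries.coeff n s)

theorem coeff_co (k : ℕ) (s : PowerSeries (PowerSeries ℂ)) (n : ℕ) :
    PowerSeries.coeff n (co k s) = PowerSeries.coeff k (PowerSeries.coeff n s) :=
  PowerSeries.coeff_mk _ _

theorem co_mul_map (k : ℕ) (s : PowerSeries (PowerSeries ℂ)) (e : PowerSeries ℂ) :
    co k (s * PowerSeries.map PowerSeries.C e) = co k s * e := by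
  ext n
  rw [coeff_co, PowerSeries.coeff_mul, PowerSeries.coeff_mul, map_sum]
  refine Finset.sum_congr rfl fun p _ => ?_
  rw [PowerSeries.coeff_map, PowerSeries.coeff_mul_C, coeff_co]

theorem co_zero (s : PowerSeries (PowerSeries ℂ)) :
    co 0 s = PowerSeries.map PowerSeries.constantCoeff s := by
  ext n
  rw [coeff_co, PowerSeries.coeff_map, PowerSeries.coeff_zero_eq_constantCoeff_apply]

/-- division by `ε` -/
def sh (s : PowerSeries (PowerSeries ℂ)) : PowerSeries (PowerSeries ℂ) :=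
  PowerSeries.mk fun n => PowerSeries.mk fun k => PowerSeries.coeff (k + 1) (PowerSeries.coeff n s)

theorem mul_sh (s : PowerSeries (PowerSeries ℂ)) (h : co 0 s = 0) :
    PowerSeries.C PowerSeries.X * sh s = s := by
  ext n k
  rw [PowerSeries.coeff_C_mul]
  cases k with
  | zero =>
    rw [PowerSeries.coeff_zero_X_mul, ← coeff_co, h, map_zero]
  | succ k =>
    rw [PowerSeries.coeff_succ_X_mul, sh, PowerSeries.coeff_mk, PowerSeries.coeff_mk]

theorem co_zero_sh (s : PowerSeries (PowerSeries ℂ)) : co 0 (sh s) = co 1 s := by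
  ext n
  rw [coeff_co, coeff_co, sh, PowerSeries.coeff_mk, PowerSeries.coeff_mk]

theorem co_X_pow_mul (d k : ℕ) (s : PowerSeries (PowerSeries ℂ)) :
    co k (PowerSeries.C (PowerSeries.X ^ d) * s) = if d ≤ k then co (k - d) s else 0 := by
  ext n
  rw [coeff_co, PowerSeries.coeff_C_mul, PowerSeries.coeff_X_pow_mul']
  split_ifs
  · rw [coeff_co]
  · simp

/-- the image of the theta series -/
def Tht : PowerSeries (PowerSeries ℂ) := PowerSeries.map phi thetaNum

theorem coeff_co_Tht (k n : ℕ) : PowerSeries.coeff n (co k Tht) =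
    ∑ m ∈ (Finset.Icc (-(n : ℤ) - 1) (n : ℤ)).filter (fun m : ℤ => m * (m + 1) = 2 * (n : ℤ)),
      ww k (2 * m + 1) := by
  rw [coeff_co, Tht, PowerSeries.coeff_map, thetaNum, PowerSeries.coeff_mk, map_sum, map_sum]
  refine Finset.sum_congr rfl fun m _ => ?_
  rw [phi_T, coeff_uu_zpow]

theorem I_odd (m : ℤ) : Complex.I ^ (2 * m + 1) = (Int.negOnePow m : ℤ) * Complex.I := by
  rw [zpow_add_one₀ Complex.I_ne_zero, zpow_mul]
  congr 1
  rw [zpow_ofNat, Complex.I_sq]
  rcases Int.even_or_odd m with h | h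
  · rw [Int.negOnePow_even m h, h.neg_one_zpow]; simp
  · rw [Int.negOnePow_odd m h, h.neg_one_zpow]; simp

theorem I_even (m : ℤ) : Complex.I ^ (2 * m) = (Int.negOnePow m : ℤ) := by
  rw [zpow_mul, zpow_ofNat, Complex.I_sq]
  rcases Int.even_or_odd m with h | h
  · rw [Int.negOnePow_even m h, h.neg_one_zpow]; simp
  · rw [Int.negOnePow_odd m h, h.neg_one_zpow]; simp

theorem co_zero_Tht : co 0 Tht = 0 := by
  ext n
  rw [coeff_co_Tht, map_zero]
  refine Finset.sum_involution (fun m _ => -1 - m) ?_ ?_ ?_ ?_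
  · intro m _
    rw [ww, ww, I_odd, I_odd]
    have e : Int.negOnePow (-1 - m) = - Int.negOnePow m := by
      rw [show -1 - m = -(m + 1) by ring, Int.negOnePow_neg, Int.negOnePow_succ]
    rw [e]
    simp
  · intro m _ _ h
    omega
  · intro m hm
    rw [Finset.mem_filter, Finset.mem_Icc] at hm ⊢
    refine ⟨by omega, ?_⟩
    rw [← hm.2]
    ring
  · intro m _
    ring

theorem co_one_Tht : co 1 Tht = PowerSeries.C Complex.I * eulerProd ℂ ^ 3 := by
  have hj := Pool.Agent.Helper308.QS.jacobi'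
  ext n
  rw [coeff_co_Tht, PowerSeries.coeff_C_mul]
  have h1 : PowerSeries.coeff n (eulerProd ℂ ^ 3) =
      ((PowerSeries.coeff n (Pool.Agent.Helper308.QS.E1 ^ 3) : ℤ) : ℂ) := by
    rw [← eulerProd_int, ← eulerProd_map (Int.castRingHom ℂ), ← map_pow, PowerSeries.coeff_map]
    rfl
  have h2 : 2 * PowerSeries.coeff n (Pool.Agent.Helper308.QS.E1 ^ 3) =
      ∑ m ∈ (Finset.Icc (-(n : ℤ) - 1) (n : ℤ)).filter (fun m : ℤ => m * (m + 1) = 2 * (n : ℤ)),
        (Int.negOnePow m : ℤ) * (2 * m + 1) := by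
    have h3 := congrArg (PowerSeries.coeff n) hj
    have e2 : (2 : PowerSeries ℤ) = PowerSeries.C 2 := by simp
    rw [e2, PowerSeries.coeff_C_mul, Pool.Agent.Helper308.QS.th, PowerSeries.coeff_mk] at h3
    rw [h3, Finset.sum_filter]
    symm
    refine Finset.sum_subset_zero_on_sdiff ?_ ?_ ?_
    · intro m hm
      rw [Finset.mem_Icc] at hm ⊢
      omega
    · intro m hm
      rw [Finset.mem_sdiff, Finset.mem_Icc, Finset.mem_Icc] at hm
      rw [if_neg]
      intro h
      have h4 := Pool.Agent.Helper308.QS.eT_two m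
      have := abs_le_of_tri (m := m) (n := n) (by omega)
      omega
    · intro m _
      have h4 := Pool.Agent.Helper308.QS.eT_two m
      rw [Pool.Agent.Helper308.QS.sg_eq]
      by_cases h : m * (m + 1) = 2 * (n : ℤ)
      · rw [if_pos h, if_pos (by omega)]
      · rw [if_neg h, if_neg (by omega)]
  have h5 : ((PowerSeries.coeff n (Pool.Agent.Helper308.QS.E1 ^ 3) : ℤ) : ℂ) =
      (∑ m ∈ (Finset.Icc (-(n : ℤ) - 1) (n : ℤ)).filter (fun m : ℤ => m * (m + 1) = 2 * (n : ℤ)),
        ((Int.negOnePow m : ℤ) : ℂ) * (2 * (m : ℂ) + 1)) / 2 := by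
    have h6 := congrArg (fun z : ℤ => (z : ℂ)) h2
    push_cast at h6
    rw [← h6]
    ring
  rw [h1, h5, mul_div_assoc', Finset.mul_sum, Finset.sum_div]
  refine Finset.sum_congr rfl fun m _ => ?_
  rw [ww, I_odd]
  push_cast
  simp
  ring

/-- the image of `F_6` -/
def PF : PowerSeries (PowerSeries ℂ) := PowerSeries.map phi (F 6)

theorem PF_mul : PF * PowerSeries.map PowerSeries.C (eulerProd ℂ ^ 6) =
    PowerSeries.C (PowerSeries.X ^ 6) * sh Tht ^ 6 := by
  have h := congrArg (PowerSeries.map phi) F_mul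
  rw [map_mul, map_pow, map_pow, eulerProd_map] at h
  rw [map_pow, eulerProd_map, map_pow, ← mul_pow, mul_sh _ co_zero_Tht]
  exact h

theorem euler_ne : (eulerProd ℂ) ≠ 0 := by
  intro h
  have := constantCoeff_eulerProd ℂ
  rw [h] at this
  simp at this

theorem co_PF_small {k : ℕ} (hk : k < 6) : co k PF = 0 := by
  have h := congrArg (co k) PF_mul
  rw [co_mul_map, co_X_pow_mul, if_neg (by omega)] at h
  exact (mul_eq_zero.1 h).resolve_right (pow_ne_zero _ euler_ne)

theorem co_PF_six : co 6 PF = - eulerProd ℂ ^ 12 := by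
  have h := congrArg (co 6) PF_mul
  rw [co_mul_map, co_X_pow_mul, if_pos le_rfl, Nat.sub_self, co_zero, map_pow, ← co_zero,
    co_zero_sh, co_one_Tht, mul_pow, ← map_pow] at h
  have hI : Complex.I ^ 6 = -1 := by
    rw [show (6 : ℕ) = 2 * 3 by norm_num, pow_mul, Complex.I_sq]; norm_num
  rw [hI, map_neg, map_one] at h
  refine mul_right_cancel₀ (pow_ne_zero 6 euler_ne) ?_
  rw [h]
  ring

/-- the moments of the coefficients -/
theorem moments (k n : ℕ) : PowerSeries.coeff n (co k PF) =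
    ∑ᶠ r : ℤ, ((Int.negOnePow r : ℤ) : ℂ) * ((r : ℂ) ^ k / (k ! : ℂ)) * ((cpsi 6 r n : ℤ) : ℂ) := by
  rw [coeff_co, PF, PowerSeries.coeff_map, coeff_phi]
  have hinj : Function.Injective (fun r : ℤ => 2 * r) := fun a b h => by
    have : 2 * a = 2 * b := h
    omega
  have h1 : (Function.support fun t : ℤ =>
      (((PowerSeries.coeff n (F 6)).coeff t : ℤ) : ℂ) * ww k t) ⊆ Set.range (fun r : ℤ => 2 * r) := by
    intro t ht
    rw [Function.mem_support] at ht
    rcases Int.emod_two_eq_zero_or_one t with h | h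
    · exact ⟨t / 2, by show 2 * (t / 2) = t; omega⟩
    · exfalso
      apply ht
      have h2 := F_parity t n h
      rw [cf_nat] at h2
      rw [h2]
      simp
  rw [← finsum_mem_univ, ← finsum_mem_inter_support, Set.univ_inter,
    ← Set.inter_eq_right.2 h1, finsum_mem_inter_support, finsum_mem_range hinj]
  refine finsum_congr fun r => ?_
  rw [cpsi_eq, cf_nat, ww, I_even]
  push_cast
  rw [mul_div_cancel_left₀ _ (two_ne_zero' ℂ)]
  ring

end

end Pool.Agent.V5helper70.FR
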