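import Pool.Agent.V5helper70.FR.T4c

/-!
# T4, part d: the pairing
-/

set_option autoImplicit false

namespace Pool.Agent.V5helper70.FR

open Pool.Agent.V5helper40.FR
open scoped LaurentPolynomial Nat

noncomputable section

theorem abs_le_sq' (r : ℤ) : |r| ≤ r ^ 2 := by
  rw [← sq_abs]
  rcases eq_or_lt_of_le (abs_nonneg r) with h | h
  · rw [← h]; norm_num
  · nlinarith

theorem coeff_ofP_nat (p : PowerSeries ℂ) (n : ℕ) : (ofP p).coeff (n : ℤ) = PowerSeries.coeff n p :=
  HahnSeries.ofPowerSeries_apply_coeff p n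

theorem coeff_ofP_neg (p : PowerSeries ℂ) {n : ℤ} (hn : n < 0) : (ofP p).coeff n = 0 := by
  rw [ofP, HahnSeries.ofPowerSeries_apply]
  apply HahnSeries.embDomain_of_notMem_range
  rintro ⟨k, hk⟩
  have : ((k : ℕ) : ℤ) = n := hk
  omega

theorem coeff_ofQ (p : PowerSeries ℂ) (n : ℤ) :
    (ofQ p).coeff n = if (24 : ℤ) ∣ n then (ofP p).coeff (n / 24) else 0 := by
  rw [ofQ, RingHom.comp_apply, dil]
  split_ifs with h
  · obtain ⟨k, rfl⟩ := h
    rw [Int.mul_ediv_cancel_left _ (by norm_num)]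
    exact HahnSeries.embDomain_coeff
  · apply HahnSeries.embDomain_of_notMem_range
    rintro ⟨k, hk⟩
    apply h
    exact ⟨k, hk.symm⟩

/-- the coefficients of a product -/
theorem coeff_mul_sum (f g : K) (N A B : ℤ) (hf : ∀ n, n < A → f.coeff n = 0)
    (hg : ∀ n, n < 0 → g.coeff n = 0) (hB : N - A ≤ B) :
    (f * g).coeff N = ∑ k ∈ Finset.Icc 0 B, f.coeff (N - k) * g.coeff k := by
  rw [HahnSeries.coeff_mul]
  refine Finset.sum_bij_ne_zero (fun p _ _ => p.2) ?_ ?_ ?_ ?_
  · intro p hp hne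
    rw [Finset.mem_antidiagonal] at hp
    rw [Finset.mem_Icc]
    have h1 : A ≤ p.1 := by
      by_contra h
      exact hne (by rw [hf _ (by omega), zero_mul])
    have h2 : 0 ≤ p.2 := by
      by_contra h
      exact hne (by rw [hg _ (by omega), mul_zero])
    have h3 : p.1 + p.2 = N := hp.2.2
    omega
  · intro p hp _ q hq _ h
    rw [Finset.mem_antidiagonal] at hp hq
    have h3 : p.1 + p.2 = N := hp.2.2
    have h4 : q.1 + q.2 = N := hq.2.2
    have h : p.2 = q.2 := h
    ext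
    · omega
    · exact h
  · intro k hk hne
    refine ⟨(N - k, k), ?_, hne, rfl⟩
    rw [Finset.mem_antidiagonal]
    refine ⟨?_, ?_, by ring⟩
    · rw [HahnSeries.mem_support]
      intro h
      exact hne (by rw [h, zero_mul])
    · rw [HahnSeries.mem_support]
      intro h
      exact hne (by rw [h, mul_zero])
  · intro p hp _
    rw [Finset.mem_antidiagonal] at hp
    have h3 : p.1 + p.2 = N := hp.2.2
    have h4 : N - p.2 = p.1 := by omega
    rw [h4]

theorem thK_neg (j : ℤ) {n : ℤ} (hn : n < 0) : (thK j).coeff n = 0 := coeff_ofP_neg _ hn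

theorem thK_coeff (j : ℤ) {n B : ℤ} (hn : 0 ≤ n) (hB : n ≤ B) :
    (thK j).coeff n = ∑ r ∈ Finset.Icc (-B) B, if (6 : ℤ) ∣ r - j ∧ 2 * r ^ 2 = n then (1 : ℂ) else 0 := by
  obtain ⟨N, rfl⟩ := Int.eq_ofNat_of_zero_le hn
  rw [thK]
  have h1 : (ofP (tht j)).coeff ((N : ℕ) : ℤ) = PowerSeries.coeff N (tht j) := coeff_ofP_nat _ _
  rw [h1, tht, PowerSeries.coeff_mk, Finset.card_filter]
  push_cast
  refine Finset.sum_subset ?_ ?_
  · intro m hm
    rw [Finset.mem_Icc] at hm ⊢
    omega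
  · intro m _ hm
    rw [if_neg]
    rintro ⟨_, h⟩
    apply hm
    rw [Finset.mem_Icc]
    have h2 := abs_le_sq' m
    have h5 : |m| ≤ (N : ℤ) := by
      have := sq_nonneg m
      linarith
    exact abs_le.1 h5

/-- the coefficients of the product with a weighted theta series -/
theorem coeff_mul_theta (f h : K) (j : ℤ) (a : ℤ → ℂ) (hh : ∀ n, h.coeff n = a n * (thK j).coeff n)
    (N : ℤ) (S : Finset ℤ) (hS : ∀ r : ℤ, f.coeff (N - 2 * r ^ 2) ≠ 0 → r ∈ S) :
    (f * h).coeff N = ∑ r ∈ S, if (6 : ℤ) ∣ r - j then a (2 * r ^ 2) * f.coeff (N - 2 * r ^ 2) else 0 := by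
  classical
  set B : ℤ := max (N - f.order) 0 with hBdef
  have hf : ∀ n, n < f.order → f.coeff n = 0 := fun n hn => HahnSeries.coeff_eq_zero_of_lt_order hn
  have hg : ∀ n, n < 0 → h.coeff n = 0 := fun n hn => by rw [hh, thK_neg j hn, mul_zero]
  rw [coeff_mul_sum f h N f.order B hf hg (le_max_left _ _)]
  have h1 : ∀ k ∈ Finset.Icc 0 B, f.coeff (N - k) * h.coeff k =
      ∑ r ∈ Finset.Icc (-B) B, if (6 : ℤ) ∣ r - j ∧ 2 * r ^ 2 = k then a k * f.coeff (N - k) else 0 := by
    intro k hk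
    rw [Finset.mem_Icc] at hk
    rw [hh, thK_coeff j hk.1 hk.2, Finset.mul_sum, Finset.mul_sum]
    refine Finset.sum_congr rfl fun r _ => ?_
    split_ifs
    · ring
    · ring
  rw [Finset.sum_congr rfl h1, Finset.sum_comm]
  have h2 : ∀ r ∈ Finset.Icc (-B) B, (∑ k ∈ Finset.Icc 0 B,
      if (6 : ℤ) ∣ r - j ∧ 2 * r ^ 2 = k then a k * f.coeff (N - k) else 0) =
      if (6 : ℤ) ∣ r - j then a (2 * r ^ 2) * f.coeff (N - 2 * r ^ 2) else 0 := by
    intro r _
    by_cases hr : (6 : ℤ) ∣ r - j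
    · rw [if_pos hr]
      by_cases hB : 2 * r ^ 2 ≤ B
      · rw [Finset.sum_eq_single (2 * r ^ 2)]
        · rw [if_pos ⟨hr, rfl⟩]
        · intro k _ hk
          rw [if_neg]
          rintro ⟨_, h3⟩
          exact hk h3.symm
        · intro h3
          exact absurd (Finset.mem_Icc.2 ⟨by positivity, hB⟩) h3
      · rw [hf _ (by have := le_max_left (N - f.order) 0; omega), mul_zero]
        refine Finset.sum_eq_zero fun k hk => ?_
        rw [Finset.mem_Icc] at hk
        rw [if_neg]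
        rintro ⟨_, h3⟩
        omega
    · rw [if_neg hr]
      refine Finset.sum_eq_zero fun k _ => ?_
      rw [if_neg]
      rintro ⟨h3, _⟩
      exact hr h3
  rw [Finset.sum_congr rfl h2]
  have hsub : ∀ (U : Finset ℤ), (∀ r : ℤ, f.coeff (N - 2 * r ^ 2) ≠ 0 → r ∈ U) →
      (∑ r ∈ U, if (6 : ℤ) ∣ r - j then a (2 * r ^ 2) * f.coeff (N - 2 * r ^ 2) else 0) =
      ∑ r ∈ U.filter (fun r => f.coeff (N - 2 * r ^ 2) ≠ 0),
        if (6 : ℤ) ∣ r - j then a (2 * r ^ 2) * f.coeff (N - 2 * r ^ 2) else 0 := by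
    intro U _
    symm
    refine Finset.sum_subset (Finset.filter_subset _ _) ?_
    intro r hr hr'
    rw [Finset.mem_filter, not_and, not_not] at hr'
    rw [hr' hr, mul_zero, ite_self]
  have hBm : ∀ r : ℤ, f.coeff (N - 2 * r ^ 2) ≠ 0 → r ∈ Finset.Icc (-B) B := by
    intro r hr
    have h3 : f.order ≤ N - 2 * r ^ 2 := by
      by_contra h4
      exact hr (hf _ (by omega))
    have h4 : 2 * r ^ 2 ≤ B := by
      have := le_max_left (N - f.order) 0
      omega
    rw [Finset.mem_Icc, ← abs_le]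
    have h5 := abs_le_sq' r
    have h6 : 0 ≤ r ^ 2 := sq_nonneg r
    linarith
  rw [hsub _ hBm, hsub _ hS]
  congr 1
  ext r
  rw [Finset.mem_filter, Finset.mem_filter]
  exact ⟨fun h => ⟨hS r h.2, h.2⟩, fun h => ⟨hBm r h.2, h.2⟩⟩

theorem G_coeff (β n : ℤ) : (G β).coeff n =
    if (24 : ℤ) ∣ n - (12 - 2 * β ^ 2) then (cpsi 6 β ((n - (12 - 2 * β ^ 2)) / 24) : ℂ) else 0 := rfl

/-- the coefficient which only depends on `r` -/
def cc (N r : ℤ) : ℂ := if (24 : ℤ) ∣ N - 12 then ((cpsi 6 r ((N - 12) / 24) : ℤ) : ℂ) else 0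

theorem G_coeff_shift (j N r : ℤ) (h : (6 : ℤ) ∣ r - j) : (G j).coeff (N - 2 * r ^ 2) = cc N r := by
  obtain ⟨s, hs⟩ := h
  obtain rfl : r = j + 6 * s := by omega
  rw [G_coeff, cc]
  have e : N - 2 * (j + 6 * s) ^ 2 - (12 - 2 * j ^ 2) = (N - 12) + 24 * (-(s * j) - 3 * s ^ 2) := by ring
  rw [e]
  by_cases hd : (24 : ℤ) ∣ N - 12
  · rw [if_pos hd, if_pos (hd.add ⟨_, rfl⟩), Int.add_mul_ediv_left _ _ (by norm_num)]
    congr 1
    rw [← cpsi_shifts j _ s]
    congr 1
    ring
  · rw [if_neg hd, if_neg]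
    intro h
    apply hd
    exact (dvd_add_left ⟨_, rfl⟩).1 h

theorem cc_neg (N r : ℤ) : cc N (-r) = cc N r := by
  rw [cc, cc, cpsi_symm]

theorem cc_finite (N : ℤ) : (Function.support (cc N)).Finite := by
  by_cases hd : (24 : ℤ) ∣ N - 12
  · rcases lt_or_ge ((N - 12) / 24) 0 with hn | hn
    · refine Set.Finite.subset Set.finite_empty ?_
      intro r hr
      rw [Function.mem_support, cc, if_pos hd, cpsi_neg _ hn] at hr
      simp at hr
    · obtain ⟨n, hn⟩ := Int.eq_ofNat_of_zero_le hn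
      refine Set.Finite.subset (((PowerSeries.coeff n (F 6)).coeff.support.finite_toSet).preimage
        (f := fun r : ℤ => 2 * r) (fun a _ b _ h => by
          have : 2 * a = 2 * b := h
          omega)) ?_
      intro r hr
      rw [Function.mem_support, cc, if_pos hd, hn, cpsi_eq] at hr
      rw [Set.mem_preimage, Finset.mem_coe, Finsupp.mem_support_iff]
      intro h
      apply hr
      have h2 : cf (F 6) (2 * r) ((n : ℕ) : ℤ) = 0 := by rw [cf_nat, h]
      rw [h2]; simp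
  · refine Set.Finite.subset Set.finite_empty ?_
    intro r hr
    rw [Function.mem_support, cc, if_neg hd] at hr
    exact hr rfl

/-- the pairing with the weighted theta series -/
theorem pair_coeff (h : ℤ → K) (a : ℤ → ℂ) (hh : ∀ j n, (h j).coeff n = a n * (thK j).coeff n)
    (N : ℤ) : (pair G h).coeff N =
      ∑ᶠ r : ℤ, ((Int.negOnePow r : ℤ) : ℂ) * (a (2 * r ^ 2) * cc N r) := by
  classical
  set S0 : Finset ℤ := (cc_finite N).toFinset with hS0
  set S : Finset ℤ := S0 ∪ S0.image (fun r => -r) with hSdef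
  have hSneg : ∀ r, r ∈ S ↔ -r ∈ S := by
    intro r
    rw [hSdef, Finset.mem_union, Finset.mem_union, Finset.mem_image, Finset.mem_image]
    constructor
    · rintro (h | ⟨x, hx, hxr⟩)
      · exact Or.inr ⟨r, h, rfl⟩
      · left
        have : x = -r := by omega
        rwa [← this]
    · rintro (h | ⟨x, hx, hxr⟩)
      · exact Or.inr ⟨-r, h, by ring⟩
      · left
        have : x = r := by omega
        rwa [← this]
  have hSmem : ∀ r, cc N r ≠ 0 → r ∈ S := by
    intro r hr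
    rw [hSdef, Finset.mem_union]
    left
    rw [hS0, Set.Finite.mem_toFinset]
    exact hr
  have key : ∀ j : ℤ, (G j * h j).coeff N =
      ∑ r ∈ S, if (6 : ℤ) ∣ r - j then a (2 * r ^ 2) * cc N r else 0 := by
    intro j
    -- a finite set that contains all relevant `r`
    obtain ⟨S', hS'⟩ : ∃ S' : Finset ℤ, (∀ r : ℤ, (G j).coeff (N - 2 * r ^ 2) ≠ 0 → r ∈ S') ∧ S ⊆ S' := by
      refine ⟨S ∪ Finset.Icc (-(max (N - (G j).order) 0)) (max (N - (G j).order) 0), ?_,
        Finset.subset_union_left⟩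
      intro r hr
      rw [Finset.mem_union]
      right
      have h3 : (G j).order ≤ N - 2 * r ^ 2 := by
        by_contra h4
        exact hr (HahnSeries.coeff_eq_zero_of_lt_order (by omega))
      have h4 : 2 * r ^ 2 ≤ max (N - (G j).order) 0 := by
        have := le_max_left (N - (G j).order) 0
        omega
      rw [Finset.mem_Icc, ← abs_le]
      have h5 := abs_le_sq' r
      have h6 : 0 ≤ r ^ 2 := sq_nonneg r
      linarith
    rw [coeff_mul_theta (G j) (h j) j a (hh j) N S' hS'.1]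
    have h1 : ∀ r ∈ S', (if (6 : ℤ) ∣ r - j then a (2 * r ^ 2) * (G j).coeff (N - 2 * r ^ 2) else 0) =
        if (6 : ℤ) ∣ r - j then a (2 * r ^ 2) * cc N r else 0 := by
      intro r _
      split_ifs with h2
      · rw [G_coeff_shift j N r h2]
      · rfl
    rw [Finset.sum_congr rfl h1]
    symm
    refine Finset.sum_subset hS'.2 ?_
    intro r _ hr
    have : cc N r = 0 := by
      by_contra h2
      exact hr (hSmem r h2)
    rw [this, mul_zero, ite_self]
  have hsym : ∀ j : ℤ, (∑ r ∈ S, if (6 : ℤ) ∣ r - j then a (2 * r ^ 2) * cc N r else 0) =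
      ∑ r ∈ S, if (6 : ℤ) ∣ r + j then a (2 * r ^ 2) * cc N r else 0 := by
    intro j
    refine Finset.sum_nbij' (fun r => -r) (fun r => -r) ?_ ?_ ?_ ?_ ?_
    · intro r hr; exact (hSneg r).1 hr
    · intro r hr; exact (hSneg r).1 hr
    · intro r _; ring
    · intro r _; ring
    · intro r _
      rw [cc_neg]
      have e1 : 2 * (-r) ^ 2 = 2 * r ^ 2 := by ring
      rw [e1]
      have e2 : (6 : ℤ) ∣ r - j ↔ (6 : ℤ) ∣ -r + j := by omega
      by_cases h2 : (6 : ℤ) ∣ r - j
      · rw [if_pos h2, if_pos (e2.1 h2)]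
      · rw [if_neg h2, if_neg (fun h3 => h2 (e2.2 h3))]
  have hsupp : (Function.support fun r : ℤ =>
      ((Int.negOnePow r : ℤ) : ℂ) * (a (2 * r ^ 2) * cc N r)) ⊆ (S : Set ℤ) := by
    intro r hr
    rw [Function.mem_support] at hr
    refine hSmem r ?_
    intro h0
    apply hr
    rw [h0]
    ring
  rw [finsum_eq_sum_of_support_subset _ hsupp]
  have hp : (pair G h).coeff N = (G 0 * h 0).coeff N - ((G 1 * h 1).coeff N + (G 1 * h 1).coeff N) +
      ((G 2 * h 2).coeff N + (G 2 * h 2).coeff N) - (G 3 * h 3).coeff N := by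
    rw [pair, two_mul, two_mul]
    simp only [HahnSeries.coeff_sub, HahnSeries.coeff_add]
  have hs1 : (∑ r ∈ S, if (6 : ℤ) ∣ r - 1 then a (2 * r ^ 2) * cc N r else 0) =
      ∑ r ∈ S, if (6 : ℤ) ∣ r - 5 then a (2 * r ^ 2) * cc N r else 0 := by
    rw [hsym 1]
    refine Finset.sum_congr rfl fun r _ => ?_
    have e2 : (6 : ℤ) ∣ r + 1 ↔ (6 : ℤ) ∣ r - 5 := by omega
    by_cases h2 : (6 : ℤ) ∣ r - 5
    · rw [if_pos h2, if_pos (e2.2 h2)]
    · rw [if_neg h2, if_neg (fun h3 => h2 (e2.1 h3))]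
  have hs2 : (∑ r ∈ S, if (6 : ℤ) ∣ r - 2 then a (2 * r ^ 2) * cc N r else 0) =
      ∑ r ∈ S, if (6 : ℤ) ∣ r - 4 then a (2 * r ^ 2) * cc N r else 0 := by
    rw [hsym 2]
    refine Finset.sum_congr rfl fun r _ => ?_
    have e2 : (6 : ℤ) ∣ r + 2 ↔ (6 : ℤ) ∣ r - 4 := by omega
    by_cases h2 : (6 : ℤ) ∣ r - 4
    · rw [if_pos h2, if_pos (e2.2 h2)]
    · rw [if_neg h2, if_neg (fun h3 => h2 (e2.1 h3))]
  have hp2 : (pair G h).coeff N =
      (∑ r ∈ S, if (6 : ℤ) ∣ r - 0 then a (2 * r ^ 2) * cc N r else 0)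
      - ((∑ r ∈ S, if (6 : ℤ) ∣ r - 1 then a (2 * r ^ 2) * cc N r else 0)
        + ∑ r ∈ S, if (6 : ℤ) ∣ r - 5 then a (2 * r ^ 2) * cc N r else 0)
      + ((∑ r ∈ S, if (6 : ℤ) ∣ r - 2 then a (2 * r ^ 2) * cc N r else 0)
        + ∑ r ∈ S, if (6 : ℤ) ∣ r - 4 then a (2 * r ^ 2) * cc N r else 0)
      - ∑ r ∈ S, if (6 : ℤ) ∣ r - 3 then a (2 * r ^ 2) * cc N r else 0 := by
    rw [hp, key 0, key 1, key 2, key 3, ← hs1, ← hs2]
  rw [hp2, ← Finset.sum_add_distrib, ← Finset.sum_add_distrib, ← Finset.sum_sub_distrib,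
    ← Finset.sum_add_distrib, ← Finset.sum_sub_distrib]
  refine Finset.sum_congr rfl fun r _ => ?_
  have hcase : r % 6 = 0 ∨ r % 6 = 1 ∨ r % 6 = 2 ∨ r % 6 = 3 ∨ r % 6 = 4 ∨ r % 6 = 5 := by omega
  have hpos : r % 2 = 0 → ((Int.negOnePow r : ℤ) : ℂ) = 1 := by
    intro h
    rw [Int.negOnePow_even r (Int.even_iff.2 h)]; simp
  have hneg : r % 2 = 1 → ((Int.negOnePow r : ℤ) : ℂ) = -1 := by
    intro h
    rw [Int.negOnePow_odd r (Int.odd_iff.2 h)]; simp
  rcases hcase with h | h | h | h | h | h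
  · rw [hpos (by omega), if_pos (by omega), if_neg (by omega), if_neg (by omega), if_neg (by omega),
      if_neg (by omega), if_neg (by omega)]
    ring
  · rw [hneg (by omega), if_neg (by omega), if_pos (by omega), if_neg (by omega), if_neg (by omega),
      if_neg (by omega), if_neg (by omega)]
    ring
  · rw [hpos (by omega), if_neg (by omega), if_neg (by omega), if_neg (by omega), if_pos (by omega),
      if_neg (by omega), if_neg (by omega)]
    ring
  · rw [hneg (by omega), if_neg (by omega), if_neg (by omega), if_neg (by omega), if_neg (by omega),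
      if_neg (by omega), if_pos (by omega)]
    ring
  · rw [hpos (by omega), if_neg (by omega), if_neg (by omega), if_neg (by omega), if_neg (by omega),
      if_pos (by omega), if_neg (by omega)]
    ring
  · rw [hneg (by omega), if_neg (by omega), if_neg (by omega), if_pos (by omega), if_neg (by omega),
      if_neg (by omega), if_neg (by omega)]
    ring

/-- the pairing with the theta derivatives, in terms of the moments -/
theorem pair_moment (h : ℤ → K) (i : ℕ) (hh : ∀ j n, (h j).coeff n = (n : ℂ) ^ i * (thK j).coeff n)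
    (N : ℤ) : (pair G h).coeff N =
      if (24 : ℤ) ∣ N - 12 then 2 ^ i * ((2 * i)! : ℂ) * (ofP (co (2 * i) PF)).coeff ((N - 12) / 24)
      else 0 := by
  rw [pair_coeff h (fun n => (n : ℂ) ^ i) hh N]
  by_cases hd : (24 : ℤ) ∣ N - 12
  · rw [if_pos hd]
    rcases lt_or_ge ((N - 12) / 24) 0 with hn | hn
    · rw [coeff_ofP_neg _ hn, mul_zero]
      refine finsum_eq_zero_of_forall_eq_zero fun r => ?_
      rw [cc, if_pos hd, cpsi_neg _ hn]
      simp
    · obtain ⟨n, hn⟩ := Int.eq_ofNat_of_zero_le hn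
      rw [hn]
      have h1 : (ofP (co (2 * i) PF)).coeff ((n : ℕ) : ℤ) = PowerSeries.coeff n (co (2 * i) PF) :=
        coeff_ofP_nat _ _
      rw [h1, moments, mul_finsum]
      · refine finsum_congr fun r => ?_
        rw [cc, if_pos hd, hn]
        have hf : (((2 * i)! : ℕ) : ℂ) ≠ 0 := by exact_mod_cast Nat.factorial_ne_zero _
        push_cast
        field_simp
        rw [mul_pow, ← pow_mul]
        ring
  · rw [if_neg hd]
    refine finsum_eq_zero_of_forall_eq_zero fun r => ?_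
    rw [cc, if_neg hd]
    simp

end

end Pool.Agent.V5helper70.FR
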